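import Mathlib

set_option autoImplicit false

namespace Pool.Agent.Results.MP_4d07cf_an.NotAlgebrable

open Filter Topology

/-- `g` is not pointwise Hölder of any exponent at any point:
`limsup_{y → x} |g y - g x| / |y - x| ^ α = ∞` for all `x` and all `α > 0`. -/
def NowhereHolder (g : ℝ → ℝ) : Prop :=
  ∀ x α : ℝ, 0 < α → ∀ C : ℝ, ∃ᶠ y in 𝓝[≠] x, C < |g y - g x| / |y - x| ^ α

/-- The functions that are `n` times differentiable at every point, with nowhere Hölder `n`-th
derivative. -/
def A (n : ℕ) : Set (ℝ → ℝ) :=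
  {f | (∀ k < n, Differentiable ℝ (iteratedDeriv k f)) ∧ NowhereHolder (iteratedDeriv n f)}

/-- Strong `κ`-algebrability of a set of real functions. -/
def StronglyAlgebrable (κ : Cardinal) (S : Set (ℝ → ℝ)) : Prop :=
  ∃ X : Set (ℝ → ℝ), Cardinal.mk X = κ ∧
    ∀ (k : ℕ), 1 ≤ k → ∀ P : MvPolynomial (Fin k) ℝ, P ≠ 0 → MvPolynomial.constantCoeff P = 0 →
      ∀ y : Fin k → (ℝ → ℝ), Function.Injective y → (∀ i, y i ∈ X) →
        MvPolynomial.aeval y P ≠ 0 ∧ MvPolynomial.aeval y P ∈ S

/-- `n` times differentiable, inductively. -/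
def DiffN : ℕ → (ℝ → ℝ) → Prop
  | 0, _ => True
  | (n + 1), f => Differentiable ℝ f ∧ DiffN n (deriv f)

theorem diffN_of (n : ℕ) : ∀ f : ℝ → ℝ, (∀ k < n, Differentiable ℝ (iteratedDeriv k f)) →
    DiffN n f := by
  induction n with
  | zero => intro f _; trivial
  | succ n ih =>
    intro f hf
    refine ⟨by simpa using hf 0 (by omega), ih _ ?_⟩
    intro k hk
    have := hf (k + 1) (by omega)
    rwa [iteratedDeriv_succ'] at this

theorem DiffN.pred {n : ℕ} : ∀ {f : ℝ → ℝ}, DiffN (n + 1) f → DiffN n f := by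
  induction n with
  | zero => intro f _; trivial
  | succ n ih => intro f hf; exact ⟨hf.1, ih hf.2⟩

theorem DiffN.mono {n m : ℕ} (h : m ≤ n) {f : ℝ → ℝ} (hf : DiffN n f) : DiffN m f := by
  induction h with
  | refl => exact hf
  | step _ ih => exact ih hf.pred

theorem DiffN.add {n : ℕ} : ∀ {f g : ℝ → ℝ}, DiffN n f → DiffN n g → DiffN n (f + g) := by
  induction n with
  | zero => intro f g _ _; trivial
  | succ n ih =>
    intro f g hf hg
    refine ⟨hf.1.add hg.1, ?_⟩
    have : deriv (f + g) = deriv f + deriv g := by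
      funext x; exact deriv_add (hf.1 x) (hg.1 x)
    rw [this]; exact ih hf.2 hg.2

theorem DiffN.mul {n : ℕ} : ∀ {f g : ℝ → ℝ}, DiffN n f → DiffN n g → DiffN n (f * g) := by
  induction n with
  | zero => intro f g _ _; trivial
  | succ n ih =>
    intro f g hf hg
    refine ⟨hf.1.mul hg.1, ?_⟩
    have : deriv (f * g) = deriv f * g + f * deriv g := by
      funext x; exact deriv_mul (hf.1 x) (hg.1 x)
    rw [this]; exact (ih hf.2 hg.pred).add (ih hf.pred hg.2)

theorem DiffN.iter {k m : ℕ} : ∀ {f : ℝ → ℝ}, DiffN (k + m) f → DiffN m (iteratedDeriv k f) := by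
  induction k with
  | zero => intro f hf; simpa using hf
  | succ k ih =>
    intro f hf
    have h1 : k + 1 + m = (k + m) + 1 := by ring
    rw [h1] at hf
    rw [iteratedDeriv_succ']
    exact ih hf.2

theorem key (f : ℝ → ℝ) (c : ℝ) (k : ℕ) : ∀ m : ℕ, DiffN (k + 1 + m) f →
    ∃ R : ℝ → ℝ, DiffN (m + 1) R ∧
      iteratedDeriv (k + 1) (fun x => f x ^ 2 - 2 * c * f x)
        = fun x => 2 * (f x - c) * iteratedDeriv (k + 1) f x + R x := by
  induction k with
  | zero =>
    intro m hf
    refine ⟨fun _ => 0, ?_, ?_⟩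
    · have : ∀ n : ℕ, DiffN n (fun _ : ℝ => (0 : ℝ)) := by
        intro n
        induction n with
        | zero => trivial
        | succ n ih => exact ⟨by fun_prop, by simpa using ih⟩
      exact this _
    · rw [zero_add, iteratedDeriv_one, iteratedDeriv_one]
      have hd : Differentiable ℝ f := (hf.mono (m := 1) (by omega)).1
      funext x
      have h1 : HasDerivAt (fun x => f x ^ 2 - 2 * c * f x)
          (2 * f x * deriv f x - 2 * c * deriv f x) x := by
        have h2 := (hd x).hasDerivAt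
        have h3 := (h2.pow 2).sub (h2.const_mul (2 * c))
        refine h3.congr_deriv ?_
        norm_num
      rw [h1.deriv]; ring
  | succ k ih =>
    intro m hf
    have h1 : k + 1 + 1 + m = k + 1 + (m + 1) := by ring
    rw [h1] at hf
    obtain ⟨R, hR, hR2⟩ := ih (m + 1) hf
    have hdf : DiffN (m + 1) (deriv f) := by
      have h3 : DiffN ((m + 1) + 1) f := hf.mono (by omega)
      exact h3.2
    have hfk : DiffN (m + 1) (iteratedDeriv (k + 1) f) := DiffN.iter hf
    refine ⟨(fun _ => 2) * (deriv f * iteratedDeriv (k + 1) f) + deriv R, ?_, ?_⟩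
    · refine DiffN.add (DiffN.mul ?_ (hdf.mul hfk)) hR.2
      have : ∀ (n : ℕ) (r : ℝ), DiffN n (fun _ : ℝ => r) := by
        intro n
        induction n with
        | zero => intro r; trivial
        | succ n ih => intro r; exact ⟨by fun_prop, by simpa using ih 0⟩
      exact this _ _
    · rw [iteratedDeriv_succ (n := k + 1), hR2]
      funext x
      have hd : Differentiable ℝ f := (hf.mono (m := 1) (by omega)).1
      have h2 := (hd x).hasDerivAt
      have h3 : HasDerivAt (iteratedDeriv (k + 1) f) (iteratedDeriv (k + 1 + 1) f x) x := by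
        rw [iteratedDeriv_succ (n := k + 1)]
        exact (hfk.1 x).hasDerivAt
      have h4 := (hR.1 x).hasDerivAt
      have h5 := ((((h2.sub_const c).const_mul 2).mul h3).add h4)
      have h6 : HasDerivAt (fun x => 2 * (f x - c) * iteratedDeriv (k + 1) f x + R x)
        (2 * deriv f x * iteratedDeriv (k + 1) f x
          + 2 * (f x - c) * iteratedDeriv (k + 1 + 1) f x + deriv R x) x := h5
      rw [h6.deriv]
      simp only [Pi.add_apply, Pi.mul_apply]
      ring

/-- A derivative is bounded on some nonempty open set. -/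
theorem exists_bdd (F : ℝ → ℝ) (hF : Differentiable ℝ F) :
    ∃ (x₀ : ℝ) (N : ℝ), 0 ≤ N ∧ ∀ᶠ x in 𝓝 x₀, |deriv F x| ≤ N := by
  let E : ℕ → Set ℝ := fun N =>
    ⋂ y : ℝ, ({x : ℝ | 1 / ((N : ℝ) + 1) ≤ |y - x|} ∪ {x | |F y - F x| ≤ N * |y - x|})
  have hE : ∀ N, IsClosed (E N) := by
    intro N
    apply isClosed_iInter
    intro y
    have hc : Continuous F := hF.continuous
    apply IsClosed.union
    · exact isClosed_le continuous_const (by fun_prop)
    · exact isClosed_le (by fun_prop) (by fun_prop)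
  have hU : ⋃ N, E N = Set.univ := by
    rw [Set.eq_univ_iff_forall]
    intro x
    have h1 := (hF x).hasDerivAt.isBigO_sub
    rw [Asymptotics.isBigO_iff] at h1
    obtain ⟨C, hC⟩ := h1
    rw [Metric.eventually_nhds_iff] at hC
    obtain ⟨δ, hδ, hC⟩ := hC
    obtain ⟨N, hN⟩ := exists_nat_gt (max C (1 / δ))
    have hN1 : C < N := (le_max_left _ _).trans_lt hN
    have hN2 : 1 / δ < N := (le_max_right _ _).trans_lt hN
    rw [Set.mem_iUnion]
    refine ⟨N, ?_⟩
    simp only [E, Set.mem_iInter, Set.mem_union, Set.mem_ofPred_eq]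
    intro y
    by_cases hy : 1 / ((N : ℝ) + 1) ≤ |y - x|
    · left; exact hy
    · right
      push Not at hy
      have h3 : |y - x| < δ := by
        apply hy.trans_le
        rw [div_le_iff₀ (by positivity)]
        rw [div_lt_iff₀ hδ] at hN2
        nlinarith
      have h4 := hC (y := y) (by rw [Real.dist_eq]; exact h3)
      rw [Real.norm_eq_abs, Real.norm_eq_abs] at h4
      exact h4.trans (mul_le_mul_of_nonneg_right hN1.le (abs_nonneg _))
  obtain ⟨N, x₀, hx₀⟩ := nonempty_interior_of_iUnion_of_closed hE hU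
  refine ⟨x₀, N, by positivity, ?_⟩
  have h5 : ∀ᶠ x in 𝓝 x₀, x ∈ E N := by
    filter_upwards [isOpen_interior.mem_nhds hx₀] with x hx using interior_subset hx
  filter_upwards [h5] with x hx
  have h6 : ‖deriv F x‖ ≤ N := by
    apply norm_deriv_le_of_lip' (by positivity)
    rw [Metric.eventually_nhds_iff]
    refine ⟨1 / ((N : ℝ) + 1), by positivity, ?_⟩
    intro y hy
    simp only [E, Set.mem_iInter, Set.mem_union, Set.mem_ofPred_eq] at hx
    rcases hx y with h | h
    · rw [Real.dist_eq] at hy; linarith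
    · simpa using h
  simpa using h6

/-- For every `n ≥ 1` the set of functions with nowhere Hölder `n`-th derivative is not strongly
`κ`-algebrable for any `κ ≥ 1`; in particular it is not strongly `𝔠`-algebrable. -/
theorem result (n : ℕ) (hn : 1 ≤ n) (κ : Cardinal) (hκ : 1 ≤ κ) :
    ¬ StronglyAlgebrable κ (A n) := by
  rintro ⟨X, hX, hP⟩
  have hne : X.Nonempty := by
    rw [Set.nonempty_iff_ne_empty]
    rintro rfl
    rw [Cardinal.mk_eq_zero] at hX
    rw [← hX] at hκ
    exact absurd hκ (by simp)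
  obtain ⟨f, hf⟩ := hne
  have hinj : Function.Injective (fun _ : Fin 1 => f) := fun a b _ => Subsingleton.elim a b
  obtain ⟨k, rfl⟩ : ∃ k, n = k + 1 := ⟨n - 1, by omega⟩
  have hfA : f ∈ A (k + 1) := by
    have := (hP 1 le_rfl (MvPolynomial.X 0) (MvPolynomial.X_ne_zero _) (by simp)
      (fun _ => f) hinj (fun _ => hf)).2
    simpa using this
  have hdf := diffN_of _ _ hfA.1
  obtain ⟨x₀, N, hN, hb⟩ := exists_bdd (iteratedDeriv k f) (hfA.1 k (by omega))
  rw [← iteratedDeriv_succ] at hb
  let c := f x₀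
  let P : MvPolynomial (Fin 1) ℝ := MvPolynomial.X 0 ^ 2 - MvPolynomial.C (2 * c) * MvPolynomial.X 0
  have hP0 : P ≠ 0 := by
    intro h
    have h1 := congrArg (MvPolynomial.eval (fun _ => 2 * c + 1)) h
    simp only [P, map_sub, map_pow, MvPolynomial.eval_X, map_mul, MvPolynomial.eval_C,
      map_zero] at h1
    have h2 := congrArg (MvPolynomial.eval (fun _ => 2 * c - 1)) h
    simp only [P, map_sub, map_pow, MvPolynomial.eval_X, map_mul, MvPolynomial.eval_C,
      map_zero] at h2
    nlinarith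
  have hPc : MvPolynomial.constantCoeff P = 0 := by simp [P]
  have hg := (hP 1 le_rfl P hP0 hPc (fun _ => f) hinj (fun _ => hf)).2
  have hge : MvPolynomial.aeval (fun _ : Fin 1 => f) P = fun x => f x ^ 2 - 2 * c * f x := by
    funext x
    simp [P, Algebra.algebraMap_eq_smul_one]
    ring
  rw [hge] at hg
  obtain ⟨R, hR, hR2⟩ := key f c k 0 (by simpa using hdf)
  have hnh := hg.2 x₀ 1 one_pos
  rw [hR2] at hnh
  have hfd : Differentiable ℝ f := (hdf.mono (m := 1) (by omega)).1
  have hO1 := (hfd x₀).hasDerivAt.isBigO_sub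
  have hO2 := (hR.1 x₀).hasDerivAt.isBigO_sub
  rw [Asymptotics.isBigO_iff] at hO1 hO2
  obtain ⟨C1, hC1⟩ := hO1
  obtain ⟨C2, hC2⟩ := hO2
  have hfin := hnh (2 * C1 * N + C2)
  apply hfin
  have h1 := hb.filter_mono (nhdsWithin_le_nhds (s := {x₀}ᶜ))
  have h2 := hC1.filter_mono (nhdsWithin_le_nhds (s := {x₀}ᶜ))
  have h3 := hC2.filter_mono (nhdsWithin_le_nhds (s := {x₀}ᶜ))
  filter_upwards [h1, h2, h3, self_mem_nhdsWithin] with y hy1 hy2 hy3 hy4
  have hpos : 0 < |y - x₀| := abs_pos.mpr (sub_ne_zero.mpr hy4)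
  rw [not_lt, Real.rpow_one, div_le_iff₀ hpos]
  rw [Real.norm_eq_abs, Real.norm_eq_abs] at hy2 hy3
  have e1 : 2 * (f y - c) * iteratedDeriv (k + 1) f y + R y
      - (2 * (f x₀ - c) * iteratedDeriv (k + 1) f x₀ + R x₀)
      = 2 * (f y - f x₀) * iteratedDeriv (k + 1) f y + (R y - R x₀) := by
    simp only [c]; ring
  rw [e1]
  calc |2 * (f y - f x₀) * iteratedDeriv (k + 1) f y + (R y - R x₀)|
      ≤ |2 * (f y - f x₀) * iteratedDeriv (k + 1) f y| + |R y - R x₀| := abs_add_le _ _
    _ = 2 * (|f y - f x₀| * |iteratedDeriv (k + 1) f y|) + |R y - R x₀| := by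
        rw [abs_mul, abs_mul, abs_two]; ring
    _ ≤ 2 * ((C1 * |y - x₀|) * N) + C2 * |y - x₀| := by
        gcongr
        exact (abs_nonneg _).trans hy2
    _ = (2 * C1 * N + C2) * |y - x₀| := by ring

end Pool.Agent.Results.MP_4d07cf_an.NotAlgebrable
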